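import Mathlib

/-!
# Invariants of fibrations

The data and their known properties.
-/

set_option autoImplicit false

namespace Pool.Agent.L0h15.IK

/-- The invariants of a fibration `F → E → B`: the dimension of `E` and the Kodaira dimensions of `E`, `F`
and `B`, where `none` stands for `-∞`. -/
structure Inv where
  /-- the dimension of the total space -/
  dim : ℕ
  /-- the Kodaira dimension of the total space -/
  kE : Option ℕ
  /-- the Kodaira dimension of the general fibre -/
  kF : Option ℕ
  /-- the Kodaira dimension of the base -/
  kB : Option ℕ

/-- the product with a natural number (`-∞` for `-∞`) -/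
def times (n : ℕ) : Option ℕ → Option ℕ
  | none => none
  | some m => some (n * m)

/-- all invariants are `n` times those of the other fibration -/
def IsMultiple (n : ℕ) (a b : Inv) : Prop :=
  a.dim = n * b.dim ∧ a.kE = times n b.kE ∧ a.kF = times n b.kF ∧ a.kB = times n b.kB

/-- the inequality `κ(E) + c ≥ κ(F) + κ(B)`, where `κ(E)` is not `-∞` if `κ(F)` and `κ(B)` are not -/
def Weak (c : ℕ) (a : Inv) : Prop :=
  ∀ p q, a.kF = some p → a.kB = some q → ∃ e, a.kE = some e ∧ p + q ≤ e + c

/-- Iitaka's inequality -/
def Iitaka (a : Inv) : Prop :=
  ∀ p q, a.kF = some p → a.kB = some q → ∃ e, a.kE = some e ∧ p + q ≤ e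

/-- the function is `o(n)` -/
def Sublinear (g : ℕ → ℕ) : Prop := ∀ k : ℕ, ∃ N : ℕ, ∀ n, N ≤ n → k * g n ≤ n

/-- the data -/
structure Fibrations where
  /-- the fibrations over the complex numbers -/
  Cx : Type
  /-- their invariants -/
  invCx : Cx → Inv
  /-- the fibrations of smooth projective geometrically connected varieties over number fields -/
  Nf : Type
  /-- their invariants -/
  invNf : Nf → Inv
  /-- the fibrations of smooth projective geometrically connected varieties over `ℚ` -/
  Rt : Type
  /-- their invariants -/
  invRt : Rt → Inv

/-- the known properties -/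
structure Fibrations.Known (D : Fibrations) : Prop where
  /-- spreading out over a variety over a number field, and specialization; by Siu's theorem the Kodaira
  dimensions are constant in smooth projective families -/
  specialize : ∀ f, ∃ f', D.invNf f' = D.invCx f
  /-- restriction of scalars; over the complex numbers it is the product of the conjugates -/
  restrict : ∀ f, ∃ d, 0 < d ∧ ∃ f', IsMultiple d (D.invRt f') (D.invNf f)
  /-- powers of a fibration -/
  power : ∀ f n, 0 < n → ∃ f', IsMultiple n (D.invRt f') (D.invRt f)
  /-- extension of scalars -/
  extend : ∀ f, ∃ f', D.invCx f' = D.invRt f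

end Pool.Agent.L0h15.IK
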