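import Pool.Agent.L0h15.IK.Ax

/-!
# Amplification
-/

set_option autoImplicit false

namespace Pool.Agent.L0h15.IK

theorem weak_of_iitaka {a : Inv} (h : Iitaka a) (c : ℕ) : Weak c a := by
  intro p q hp hq
  obtain ⟨e, he, hle⟩ := h p q hp hq
  exact ⟨e, he, by omega⟩

/-- the powers of a counterexample with large multiplicity violate the weak inequality -/
theorem iitaka_of_weak {g : ℕ → ℕ} (hg : Sublinear g) {b : Inv}
    (h : ∀ N : ℕ, ∃ n, N ≤ n ∧ 0 < n ∧ ∃ a, IsMultiple n a b ∧ Weak (g a.dim) a) : Iitaka b := by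
  intro p q hp hq
  -- the Kodaira dimension of the total space is not `-∞`
  have hE : ∃ e, b.kE = some e := by
    obtain ⟨n, _, hn, a, ⟨_, hE, hF, hB⟩, hw⟩ := h 0
    obtain ⟨e, he, _⟩ := hw (n * p) (n * q) (by rw [hF, hp]; rfl) (by rw [hB, hq]; rfl)
    rw [hE] at he
    rcases hk : b.kE with _ | e'
    · rw [hk] at he
      simp [times] at he
    · exact ⟨e', rfl⟩
  obtain ⟨e, he⟩ := hE
  refine ⟨e, he, ?_⟩
  by_contra hlt
  push Not at hlt
  obtain ⟨N, hN⟩ := hg (b.dim + 1)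
  obtain ⟨n, hNn, hn, a, ⟨hd, hE, hF, hB⟩, hw⟩ := h (N + g 0 + 1)
  obtain ⟨e', he', h1⟩ := hw (n * p) (n * q) (by rw [hF, hp]; rfl) (by rw [hB, hq]; rfl)
  have h2 : e' = n * e := by
    rw [hE, he] at he'
    simpa [times] using he'.symm
  subst h2
  have h3 : n ≤ g a.dim := by nlinarith
  rcases Nat.eq_zero_or_pos b.dim with hm | hm
  · rw [hd, hm, Nat.mul_zero] at h3
    omega
  · have h4 : N ≤ a.dim := by rw [hd]; nlinarith
    have h5 := hN a.dim h4
    rw [hd] at h5 h3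
    nlinarith

/-- from a weak inequality over `ℚ` to the inequality over the complex numbers -/
theorem iitaka_of_rational {D : Fibrations} (hK : D.Known) {g : ℕ → ℕ} (hg : Sublinear g)
    (h : ∀ f, Weak (g (D.invRt f).dim) (D.invRt f)) (f : D.Cx) : Iitaka (D.invCx f) := by
  obtain ⟨f₁, h₁⟩ := hK.specialize f
  obtain ⟨d, hd, f₂, h₂⟩ := hK.restrict f₁
  rw [← h₁]
  refine iitaka_of_weak hg fun N => ?_
  obtain ⟨f₃, h₃⟩ := hK.power f₂ (N + 1) (Nat.succ_pos N)
  refine ⟨(N + 1) * d, by nlinarith, Nat.mul_pos (Nat.succ_pos N) hd, D.invRt f₃, ?_, h f₃⟩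
  obtain ⟨a1, a2, a3, a4⟩ := h₂
  obtain ⟨b1, b2, b3, b4⟩ := h₃
  have key : ∀ x : Option ℕ, times (N + 1) (times d x) = times ((N + 1) * d) x := by
    rintro (_ | x)
    · rfl
    · show some ((N + 1) * (d * x)) = some ((N + 1) * d * x)
      rw [Nat.mul_assoc]
  exact ⟨by rw [b1, a1, Nat.mul_assoc], by rw [b2, a2, key], by rw [b3, a3, key],
    by rw [b4, a4, key]⟩

theorem rational_of_iitaka {D : Fibrations} (hK : D.Known) (h : ∀ f, Iitaka (D.invCx f))
    (f : D.Rt) : Iitaka (D.invRt f) := by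
  obtain ⟨f', hf⟩ := hK.extend f
  rw [← hf]
  exact h f'

end Pool.Agent.L0h15.IK
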